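import Pool.Agent.H37.CNW.Stmts
import Pool.Agent.H99.CND.SUB

/-! Board cnw, row XRL: the lower bound for the wreath products over transitive sets. -/

set_option autoImplicit false

namespace Pool.CND

open Finset

theorem XRL_finite {p : ℕ} {H Ω : Type} [Group H] [Finite H] [Finite Ω] [MulAction H Ω]
    (hp : p.Prime) : Finite (PW p H Ω) := by
  have : NeZero p := ⟨hp.ne_zero⟩
  have : Finite (Multiplicative (ZMod p)) := inferInstanceAs (Finite (ZMod p))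
  exact Finite.of_equiv _ (SemidirectProduct.equivProd (N := Ω → Multiplicative (ZMod p))
    (G := H)).symm

/-- All numbers `(n |J| + S) / |I|` are conductors of the wreath product. -/
theorem XRL_cond (hXLY : S_XLY) (hXGX : S_XGX) (hXUX : S_XUX) (hWP4 : S_WP4) (hXCC : S_XCC)
    (p : ℕ) (k H Ω L : Type) [Field k] [IsAlgClosed k] [Group H] [Finite H] [Finite Ω]
    [MulAction H Ω] [MulAction.IsPretransitive H Ω]
    [Field L] [Algebra k L] (ρ : H →* (L ≃ₐ[k] L)) (t : L) (P : Place k L) (ω₀ : Ω)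
    (I J : Subgroup H) (hI : (I : Set H) = ram P ρ 0)
    (hJ : ∀ h, h ∈ J ↔ h ∈ ram P ρ 0 ∧ h • ω₀ = ω₀)
    (hp : p.Prime) (hchar : CharP k p) (hcov : IsCover ρ t) (hPt : P.ord t < 0) :
    ∃ (n₁ : ℕ) (S : ℤ), ∀ n : ℕ, n₁ ≤ n → ¬ p ∣ n →
      ∃ c ∈ Cond k (PW p H Ω), (Nat.card I : ℚ) * c = ((n * Nat.card J : ℕ) : ℚ) + (S : ℤ) := by
  classical
  have hpF : Fact p.Prime := ⟨hp⟩
  have : Finite (PW p H Ω) := XRL_finite hp
  have : Fintype H := Fintype.ofFinite H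
  have : Fintype Ω := Fintype.ofFinite Ω
  have : Fintype (PW p H Ω) := Fintype.ofFinite _
  obtain ⟨C, n₀, hn₀⟩ := hXLY p k L H Ω ρ t P ω₀ J hp hchar hcov hPt hJ
  refine ⟨max n₀ (p ^ Nat.card Ω * ((∑ w : H, (P.b (ρ w)).natAbs) + C) + 1),
    sm (fun h => P.b (ρ h)) {h | h ∈ I ∧ h ∉ J}, ?_⟩
  intro n hn hpn
  obtain ⟨r, hr, hReg, hord, hfar, hind⟩ := hn₀ n (le_trans (le_max_left _ _) hn)
  have hbn : ∀ h ∈ I, P.b (ρ h) ≤ ((∑ w : H, (P.b (ρ w)).natAbs : ℕ) : ℤ) := by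
    intro w _
    have h1 : (P.b (ρ w)).natAbs ≤ ∑ w : H, (P.b (ρ w)).natAbs :=
      single_le_sum (f := fun w => (P.b (ρ w)).natAbs) (fun _ _ => Nat.zero_le _) (mem_univ w)
    have h3 : P.b (ρ w) ≤ ((P.b (ρ w)).natAbs : ℤ) := Int.le_natAbs
    omega
  have hlarge : p ^ Nat.card Ω * ((∑ w : H, (P.b (ρ w)).natAbs) + C) < n := by
    have h2 := le_trans (le_max_right _ _) hn
    omega
  have hr0 : ∀ ω, r ω ≠ 0 := by
    intro ω h0
    have h1 : ∃ ω', ¬ p ∣ (fun ω' => if ω' = ω then 1 else 0 : Ω → ℕ) ω' := by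
      refine ⟨ω, ?_⟩
      simp only [if_true]
      intro h
      exact hp.one_lt.ne' (Nat.dvd_one.1 h)
    refine hind _ h1 0 ?_
    rw [zero_pow hp.ne_zero, sub_zero, Finset.sum_eq_single ω]
    · simp only [if_true, Nat.cast_one, one_mul]
      exact h0.symm
    · intro b _ hb
      simp only [if_neg hb, Nat.cast_zero, zero_mul]
    · intro h
      exact absurd (mem_univ ω) h
  obtain ⟨L', _, _, j, y, ρ', hinj', hy, hj, hact, hfix⟩ :=
    hXGX p k L H Ω ρ r hp hchar hcov.inj hr hind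
  have hcov' : IsCover ρ' (j t) :=
    hXUX p k L L' H Ω ρ t r j y ρ' hp hchar hcov hReg hinj' hy hj hact hfix
  have hsur : Function.Surjective
      (SemidirectProduct.rightHom : PW p H Ω →* H) := SemidirectProduct.rightHom_surjective
  obtain ⟨P', e', hWX⟩ := hWP4 k L L' (PW p H Ω) H ρ ρ' j
    SemidirectProduct.rightHom P t hcov hcov' hPt hsur hj hfix
  obtain ⟨c, hc, hcc⟩ := hXCC p k L L' H Ω ρ r j y ρ' P P' e' n C
    (∑ w : H, (P.b (ρ w)).natAbs) ω₀ I J hp hchar hWX hy hact hr hr0 hI hJ hord hfar hpn hbn hlarge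
  have ht0 : t ≠ 0 := by
    rintro rfl
    exact hcov.trans isAlgebraic_zero
  refine ⟨c, ⟨L', _, _, ρ', j t, hcov', P', ?_, hc⟩, hcc⟩
  rw [← hWX.ord t ht0]
  have he : (0 : ℤ) < e' := by exact_mod_cast hWX.pos
  exact mul_neg_of_pos_of_neg he hPt

theorem xrl_thm (hXLY : S_XLY) (hXGX : S_XGX) (hXUX : S_XUX) (hWP4 : S_WP4) (hXCC : S_XCC)
    (hALL : S_ALL) : S_XRL := by
  intro p k H Ω _ _ _ _ _ _ _ hp hchar r hr
  have hpF : Fact p.Prime := ⟨hp⟩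
  have hfin : Finite (PW p H Ω) := XRL_finite hp
  obtain ⟨L, _, _, ρ, t, hcov, P, hPt, ω₀, hr⟩ := hr
  obtain ⟨I, hI⟩ : ∃ I : Subgroup H, (I : Set H) = ram P ρ 0 := ⟨ramSub P ρ 0, rfl⟩
  have hI' : ∀ h, h ∈ ram P ρ 0 ↔ h ∈ I := fun h => by rw [← hI]; rfl
  obtain ⟨J, hJd⟩ : ∃ J : Subgroup H, J = (MulAction.stabilizer I ω₀).map I.subtype := ⟨_, rfl⟩
  have hJ : ∀ h, h ∈ J ↔ h ∈ ram P ρ 0 ∧ h • ω₀ = ω₀ := by
    intro h
    rw [hJd, Subgroup.mem_map, hI']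
    constructor
    · rintro ⟨x, hx, rfl⟩
      exact ⟨x.2, hx⟩
    · rintro ⟨h1, h2⟩
      exact ⟨⟨h, h1⟩, h2, rfl⟩
  have hcJ : Nat.card J = Nat.card (MulAction.stabilizer I ω₀) := by
    rw [hJd]
    exact Subgroup.card_map_of_injective (Subgroup.subtype_injective I)
  have hIJ : Nat.card I = r * Nat.card J := by
    have h1 := MulAction.index_stabilizer I ω₀
    have h2 := (MulAction.stabilizer I ω₀).index_mul_card
    have h3 : (MulAction.orbit I ω₀ : Set Ω) = {ω' : Ω | ∃ h ∈ ram P ρ 0, ω' = h • ω₀} := by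
      ext ω'
      rw [MulAction.mem_orbit_iff, Set.mem_ofPred_eq]
      constructor
      · rintro ⟨x, hx⟩
        exact ⟨x, (hI' x).2 x.2, hx.symm⟩
      · rintro ⟨h, hh, hx⟩
        exact ⟨⟨h, (hI' h).1 hh⟩, hx.symm⟩
    rw [h1, h3, ← hr] at h2
    rw [hcJ]
    exact h2.symm
  obtain ⟨n₁, S, hn₁⟩ := XRL_cond hXLY hXGX hXUX hWP4 hXCC p k H Ω L ρ t P ω₀ I J hI hJ hp hchar
    hcov hPt
  have hJ0 : 0 < Nat.card J := Nat.card_pos
  have key : ∀ n : ℕ, n₁ ≤ n → ¬ p ∣ n → ((Nat.card I : ℕ) : ℤ) ∣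
      (NG k (PW p H Ω) : ℤ) * (((n * Nat.card J : ℕ) : ℤ) + S) := by
    intro n hn hpn
    obtain ⟨c, hc, hcc⟩ := hn₁ n hn hpn
    obtain ⟨z, hz⟩ := hALL p k (PW p H Ω) c hp hchar hc
    refine ⟨z, ?_⟩
    have h1 : ((NG k (PW p H Ω) : ℚ)) * (((n * Nat.card J : ℕ) : ℚ) + (S : ℤ)) =
        (Nat.card I : ℚ) * z := by
      rw [← hcc, ← hz]
      ring
    exact_mod_cast h1
  -- differences
  have key2 : ∀ m i : ℕ, n₁ ≤ m → ¬ p ∣ m → ¬ p ∣ m + i → r ∣ i * NG k (PW p H Ω) := by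
    intro m i hm h1 h2
    have k1 := key m hm h1
    have k2 := key (m + i) (by omega) h2
    have k3 := dvd_sub k2 k1
    have e3 : (NG k (PW p H Ω) : ℤ) * ((((m + i) * Nat.card J : ℕ) : ℤ) + S) -
        (NG k (PW p H Ω) : ℤ) * (((m * Nat.card J : ℕ) : ℤ) + S) =
        ((i * NG k (PW p H Ω) * Nat.card J : ℕ) : ℤ) := by
      push_cast
      ring
    rw [e3, hIJ] at k3
    exact Nat.dvd_of_mul_dvd_mul_right hJ0 (Int.natCast_dvd_natCast.1 k3)
  have hp2 := hp.two_le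
  have hle : ∀ i : ℕ, n₁ ≤ p * n₁ + i := by
    intro i
    nlinarith
  have hnd : ∀ i : ℕ, 1 ≤ i → i < p → ¬ p ∣ p * n₁ + i := by
    intro i h1 h2 h3
    have h4 : p ∣ i := (Nat.dvd_add_right (Dvd.intro _ rfl)).1 h3
    exact absurd (Nat.le_of_dvd h1 h4) (by omega)
  by_cases h2 : p = 2
  · subst h2
    rw [Nat.gcd_self]
    exact key2 (2 * n₁ + 1) 2 (hle 1) (hnd 1 le_rfl (by omega)) (by omega)
  · have hg : Nat.gcd 2 p = 1 := by
      rcases (Nat.coprime_primes Nat.prime_two hp).2 (Ne.symm h2) with h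
      exact h
    rw [hg]
    exact key2 (p * n₁ + 1) 1 (hle 1) (hnd 1 le_rfl (by omega)) (hnd 2 (by omega) (by omega))

end Pool.CND
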